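import Pool.Agent.helper99.WN.SpecA

/-! Row HR: the rank of an immersed connected graph is at most the number of generators. -/

set_option autoImplicit false

open Classical

namespace Pool.Agent.WN

theorem HR (hFU : FU_stmt) : HR_stmt := by
  intro V _ k m E v0 b hImm hConn hLoop
  let c : V × Fin k × V → Multiplicative ((V × Fin k × V) → ℚ) :=
    fun e => Multiplicative.ofAdd (Pi.single e (1 : ℚ))
  have hlift : ∀ (a d : V) (g : Fr k), PL (lf E) a d g →
      ∃ ζ : (V × Fin k × V) → ℚ, PL (lfc E c) a d (g, Multiplicative.ofAdd ζ) := by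
    intro a d g h
    have H : ∀ a x d, (a, x, d) ∈ lf E → ∃ x', (MonoidHom.fst (Fr k)
        (Multiplicative ((V × Fin k × V) → ℚ))) x' = x ∧ PL (lfc E c) a d x' := by
      rintro a x d ⟨e, he, hex⟩
      refine ⟨(FreeGroup.of e.2.1, c e), ?_, PL.edge ⟨e, he, ?_⟩⟩
      · have h2 := congrArg (fun z => z.2.1) hex
        exact h2.symm
      · have h1 := congrArg (fun z => z.1) hex
        have h3 := congrArg (fun z => z.2.2) hex
        simp only at h1 h3
        rw [h1, h3]
    obtain ⟨g', hg', h'⟩ := PL.lift _ H h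
    refine ⟨Multiplicative.toAdd g'.2, ?_⟩
    have e : g' = (g, Multiplicative.ofAdd (Multiplicative.toAdd g'.2)) := by
      apply Prod.ext
      · exact hg'
      · rfl
    rw [← e]
    exact h'
  have hdown : ∀ (a d : V) (g : Fr k × Multiplicative ((V × Fin k × V) → ℚ)),
      PL (lfc E c) a d g → PL (lf E) a d g.1 := by
    intro a d g h
    refine PL.hom (MonoidHom.fst (Fr k) (Multiplicative ((V × Fin k × V) → ℚ))) ?_ h
    rintro a x d ⟨e, he, hex⟩
    apply PL.edge
    refine ⟨e, he, ?_⟩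
    rw [Prod.ext_iff, Prod.ext_iff] at hex
    obtain ⟨h1, h2, h3⟩ := hex
    simp only at h1 h2 h3
    rw [h1, h3, h2]
    rfl
  have hb : ∀ i : Fin m, ∃ ζ : (V × Fin k × V) → ℚ,
      PL (lfc E c) v0 v0 (b i, Multiplicative.ofAdd ζ) := by
    intro i
    apply hlift
    exact (hLoop (b i)).2 (Subgroup.subset_closure ⟨i, rfl⟩)
  choose ζ hζ using hb
  have hp : ∀ v : V, ∃ (g : Fr k) (p : (V × Fin k × V) → ℚ),
      PL (lfc E c) v0 v (g, Multiplicative.ofAdd p) := by
    intro v
    obtain ⟨g, hg⟩ := hConn v0 v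
    exact ⟨g, hlift _ _ _ hg⟩
  choose gv p hgp using hp
  have hspan1 : ∀ h ∈ Subgroup.closure (Set.range b), ∃ z ∈ Submodule.span ℚ (Set.range ζ),
      PL (lfc E c) v0 v0 (h, Multiplicative.ofAdd z) := by
    intro h hh
    induction hh using Subgroup.closure_induction with
    | mem x hx =>
      obtain ⟨i, rfl⟩ := hx
      exact ⟨ζ i, Submodule.subset_span ⟨i, rfl⟩, hζ i⟩
    | one => exact ⟨0, Submodule.zero_mem _, PL.nil v0⟩
    | mul x y _ _ hx hy =>
      obtain ⟨z1, hz1, h1⟩ := hx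
      obtain ⟨z2, hz2, h2⟩ := hy
      exact ⟨z1 + z2, Submodule.add_mem _ hz1 hz2, h1.trans h2⟩
    | inv x _ hx =>
      obtain ⟨z1, hz1, h1⟩ := hx
      exact ⟨-z1, Submodule.neg_mem _ hz1, h1.symm⟩
  have hclaim : ∀ (h : Fr k) (z : (V × Fin k × V) → ℚ),
      PL (lfc E c) v0 v0 (h, Multiplicative.ofAdd z) → z ∈ Submodule.span ℚ (Set.range ζ) := by
    intro h z hz
    have h1 := (hLoop h).1 (hdown _ _ _ hz)
    obtain ⟨z', hz', h2⟩ := hspan1 h h1
    have h3 := h2.symm.trans hz
    have e : (h, Multiplicative.ofAdd z')⁻¹ * (h, Multiplicative.ofAdd z) =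
        ((1 : Fr k), (Multiplicative.ofAdd z')⁻¹ * Multiplicative.ofAdd z) := by
      apply Prod.ext
      · exact inv_mul_cancel h
      · rfl
    rw [e] at h3
    have h4 := (hFU V k _ E c hImm v0 v0 _ h3).2
    have h5 : Multiplicative.ofAdd z' = Multiplicative.ofAdd z := inv_mul_eq_one.1 h4
    have h6 : z' = z := Multiplicative.ofAdd.injective h5
    rw [← h6]
    exact hz'
  -- the spanning family
  let ψ : Fin m ⊕ {v : V // v ≠ v0} → ((V × Fin k × V) → ℚ) := Sum.elim ζ (fun v => p v.1)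
  have hζψ : Submodule.span ℚ (Set.range ζ) ≤ Submodule.span ℚ (Set.range ψ) := by
    apply Submodule.span_mono
    rintro _ ⟨i, rfl⟩
    exact ⟨Sum.inl i, rfl⟩
  have hpψ : ∀ v, p v ∈ Submodule.span ℚ (Set.range ψ) := by
    intro v
    by_cases hv : v = v0
    · subst hv
      exact hζψ (hclaim _ _ (hgp v))
    · exact Submodule.subset_span ⟨Sum.inr ⟨v, hv⟩, rfl⟩
  have hE : ∀ e : E, (Pi.single e.1 (1 : ℚ) : (V × Fin k × V) → ℚ) ∈
      Submodule.span ℚ (Set.range ψ) := by
    rintro ⟨e, he⟩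
    have h1 : PL (lfc E c) e.1 e.2.2 (FreeGroup.of e.2.1, c e) := PL.edge ⟨e, he, rfl⟩
    have h2 := ((hgp e.1).trans h1).trans (hgp e.2.2).symm
    have h3 := hclaim _ (p e.1 + Pi.single e (1 : ℚ) + -p e.2.2) h2
    have h4 := Submodule.add_mem _ (Submodule.sub_mem _ (hζψ h3) (hpψ e.1)) (hpψ e.2.2)
    have e5 : p e.1 + Pi.single e (1 : ℚ) + -p e.2.2 - p e.1 + p e.2.2 =
        (Pi.single e (1 : ℚ) : (V × Fin k × V) → ℚ) := by abel
    rw [e5] at h4
    exact h4
  have hli : LinearIndependent ℚ (fun e : E => (Pi.single e.1 (1 : ℚ) : (V × Fin k × V) → ℚ)) := by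
    have h1 := (Pi.basisFun ℚ (V × Fin k × V)).linearIndependent
    have h2 := h1.comp (fun e : E => e.1) Subtype.val_injective
    have e : (fun e : E => (Pi.single e.1 (1 : ℚ) : (V × Fin k × V) → ℚ)) =
        (⇑(Pi.basisFun ℚ (V × Fin k × V)) ∘ fun e : E => e.1) := by
      funext e
      simp
    rw [e]
    exact h2
  have hle : Submodule.span ℚ (Set.range (fun e : E =>
      (Pi.single e.1 (1 : ℚ) : (V × Fin k × V) → ℚ))) ≤ Submodule.span ℚ (Set.range ψ) := by
    rw [Submodule.span_le]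
    rintro _ ⟨e, rfl⟩
    exact hE e
  have h1 := Submodule.finrank_mono hle
  rw [finrank_span_eq_card hli] at h1
  have h2 : Module.finrank ℚ (Submodule.span ℚ (Set.range ψ)) ≤
      Fintype.card (Fin m ⊕ {v : V // v ≠ v0}) := finrank_range_le_card ψ
  have h3 : Fintype.card {v : V // v ≠ v0} + 1 = Fintype.card V := by
    have h4 := Fintype.card_subtype_compl (fun v : V => v = v0)
    rw [Fintype.card_subtype_eq] at h4
    have h5 : 0 < Fintype.card V := Fintype.card_pos_iff.2 ⟨v0⟩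
    have h6 : Fintype.card {v : V // v ≠ v0} = Fintype.card V - 1 := h4
    omega
  rw [Fintype.card_sum, Fintype.card_fin] at h2
  rw [Fintype.card_coe] at h1
  omega

end Pool.Agent.WN
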